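import Pool.Agent.H.MP_e714e3_pr.A

/-! The mean abandonment rate of the many-server queue with exponential deadlines is strictly convex. -/

open Filter Topology Set
open scoped ContDiff

namespace Pool.Agent.Results.MP_e714e3_pr.Convex

/-- total abandonment rate with `i` jobs present (`dbs = true`: deadline to beginning of service) -/
noncomputable def L (dbs : Bool) (m : ℕ) (θ : ℝ) (i : ℕ) : ℝ := if dbs then max (i - m : ℝ) 0 * θ else i * θ

/-- death rate with `i` jobs present -/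
noncomputable def dr (dbs : Bool) (m : ℕ) (μ θ : ℝ) (i : ℕ) : ℝ := min (i : ℝ) m * μ + L dbs m θ i

/-- unnormalised stationary weight of state `i` at arrival rate `x` -/
noncomputable def w (d : ℕ → ℝ) (x : ℝ) (i : ℕ) : ℝ := ∏ j ∈ Finset.range i, x / d (j + 1)

/-- mean abandonment rate as a function of the arrival rate -/
noncomputable def ell (dbs : Bool) (m : ℕ) (μ θ x : ℝ) : ℝ :=
  (∑' i, w (dr dbs m μ θ) x i * L dbs m θ i) / ∑' i, w (dr dbs m μ θ) x i

theorem result (dbs : Bool) (m : ℕ) (μ θ : ℝ) (hm : 1 ≤ m) (hμ : 0 < μ) (hθ : 0 < θ) :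
    (∀ x > 0, Summable (w (dr dbs m μ θ) x) ∧ Summable fun i => w (dr dbs m μ θ) x i * L dbs m θ i) ∧
      StrictMonoOn (ell dbs m μ θ) (Ioi 0) ∧ StrictConvexOn ℝ (Ioi 0) (ell dbs m μ θ) ∧
      ContDiffOn ℝ ∞ (ell dbs m μ θ) (Ioi 0) ∧ StrictMonoOn (deriv (ell dbs m μ θ)) (Ioi 0) ∧
      Tendsto (deriv (ell dbs m μ θ)) atTop (𝓝 1) :=
  Pool.Agent.H.MP_e714e3_pr.main dbs hm hμ hθ (l := ell dbs m μ θ) fun _ => rfl

end Pool.Agent.Results.MP_e714e3_pr.Convex
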